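import Pool.Agent.TH116.IG.Basic

/-!
# The integral Mumford–Tate conjecture: indices smaller than `ℓ` are bounded
-/

universe u

namespace Pool.Agent.Results.MP_2b5912_ag.IndexBelowPrime

open Pool.Agent.TH116.IG

/-- Let `H_ℓ` be subgroups of groups `G_ℓ` (`ℓ` runs over the primes), and let the index of
`H_ℓ G_ℓ⁺` be bounded. The index of `H_ℓ` is finite and bounded if and only if it is finite for all `ℓ`
and smaller than `ℓ` for all but finitely many `ℓ`. -/
theorem result (G : Nat.Primes → Type u) [∀ l, Group (G l)] (H : ∀ l, Subgroup (G l))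
    (h0 : ∃ C : ℕ, ∀ l : Nat.Primes, (H l ⊔ plus l (G l)).index ≤ C) :
    (∃ C : ℕ, ∀ l, (H l).index ≠ 0 ∧ (H l).index ≤ C) ↔
      (∀ l, (H l).index ≠ 0) ∧ {l : Nat.Primes | (l : ℕ) ≤ (H l).index}.Finite :=
  bounded_iff G H h0

end Pool.Agent.Results.MP_2b5912_ag.IndexBelowPrime
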